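import Mathlib
import Pool.Agent.Lib.MP_ee94a4_gt.Main

set_option autoImplicit false

/-!
In dimension 3 the covering number by proper translates of a convex body can be at least 6, while
a 0-antipodal polytope has at most 5 vertices.
-/

namespace Pool.Agent.Results.MP_ee94a4_gt.CoveringNumber

/-- Euclidean 3-space -/
abbrev E3 : Type := EuclideanSpace ℝ (Fin 3)

/-- `K` is covered by `k` proper translates `K + t i`, `t i ≠ 0` -/
def CoveredBy (K : Set E3) (k : ℕ) : Prop :=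
  ∃ t : Fin k → E3, (∀ i, t i ≠ 0) ∧ K ⊆ ⋃ i, (fun p => p + t i) '' K

/-- convex body: compact, convex, nonempty interior -/
def IsConvexBody (K : Set E3) : Prop := IsCompact K ∧ Convex ℝ K ∧ (interior K).Nonempty

/-- the plane `f = a` is a supporting plane of `K` -/
def Supports (K : Set E3) (f : E3 →L[ℝ] ℝ) (a : ℝ) : Prop :=
  (∃ z ∈ K, f z = a) ∧ ((∀ z ∈ K, f z ≤ a) ∨ ∀ z ∈ K, a ≤ f z)

/-- a 0-antipodal pair of `K`: two distinct parallel supporting planes which meet `K` in `x` only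
and in `y` only -/
def ZeroAntipodalPair (K : Set E3) (x y : E3) : Prop :=
  ∃ f : E3 →L[ℝ] ℝ, f ≠ 0 ∧ ∃ a b : ℝ, a ≠ b ∧ Supports K f a ∧ Supports K f b ∧
    K ∩ {z | f z = a} = {x} ∧ K ∩ {z | f z = b} = {y}

/-- a 3-polytope any two vertices of which form a 0-antipodal pair -/
def ZeroAntipodalPolytope (P : Set E3) : Prop :=
  (∃ S : Set E3, S.Finite ∧ P = convexHull ℝ S) ∧ (interior P).Nonempty ∧
    ∀ x ∈ P.extremePoints ℝ, ∀ y ∈ P.extremePoints ℝ, x ≠ y → ZeroAntipodalPair P x y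

theorem pair_functional {P : Set E3} {x y : E3} (h : ZeroAntipodalPair P x y) :
    ∃ f : E3 →L[ℝ] ℝ, ∀ z ∈ P, (z ≠ x → f x < f z) ∧ (z ≠ y → f z < f y) := by
  obtain ⟨f, -, a, b, hab, ⟨-, ha⟩, ⟨-, hb⟩, hx, hy⟩ := h
  have hx' : x ∈ P ∧ f x = a := by
    have : x ∈ P ∩ {z | f z = a} := by rw [hx]; rfl
    exact this
  have hy' : y ∈ P ∧ f y = b := by
    have : y ∈ P ∩ {z | f z = b} := by rw [hy]; rfl
    exact this
  have hax : ∀ z ∈ P, z ≠ x → f z ≠ a := by
    intro z hz hzx h1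
    have : z ∈ P ∩ {z | f z = a} := ⟨hz, h1⟩
    rw [hx] at this
    exact hzx this
  have hby : ∀ z ∈ P, z ≠ y → f z ≠ b := by
    intro z hz hzy h1
    have : z ∈ P ∩ {z | f z = b} := ⟨hz, h1⟩
    rw [hy] at this
    exact hzy this
  rcases lt_or_gt_of_ne hab with h1 | h1
  · have ha' : ∀ z ∈ P, a ≤ f z := by
      rcases ha with ha | ha
      · exact absurd (ha y hy'.1) (by rw [hy'.2]; exact not_le.2 h1)
      · exact ha
    have hb' : ∀ z ∈ P, f z ≤ b := by
      rcases hb with hb | hb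
      · exact hb
      · exact absurd (hb x hx'.1) (by rw [hx'.2]; exact not_le.2 h1)
    refine ⟨f, fun z hz => ⟨fun h2 => ?_, fun h2 => ?_⟩⟩
    · rw [hx'.2]
      exact lt_of_le_of_ne (ha' z hz) (hax z hz h2).symm
    · rw [hy'.2]
      exact lt_of_le_of_ne (hb' z hz) (hby z hz h2)
  · have ha' : ∀ z ∈ P, f z ≤ a := by
      rcases ha with ha | ha
      · exact ha
      · exact absurd (ha y hy'.1) (by rw [hy'.2]; exact not_le.2 h1)
    have hb' : ∀ z ∈ P, b ≤ f z := by
      rcases hb with hb | hb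
      · exact absurd (hb x hx'.1) (by rw [hx'.2]; exact not_le.2 h1)
      · exact hb
    refine ⟨-f, fun z hz => ⟨fun h2 => ?_, fun h2 => ?_⟩⟩
    · show -(f x) < -(f z)
      rw [hx'.2]
      exact neg_lt_neg (lt_of_le_of_ne (ha' z hz) (hax z hz h2))
    · show -(f z) < -(f y)
      rw [hy'.2]
      exact neg_lt_neg (lt_of_le_of_ne (hb' z hz) (hby z hz h2).symm)

theorem vertices_le {P : Set E3} (hP : ZeroAntipodalPolytope P) :
    (P.extremePoints ℝ).Finite ∧ (P.extremePoints ℝ).ncard ≤ 5 := by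
  obtain ⟨⟨S, hS, rfl⟩, -, h⟩ := hP
  have hsub : (convexHull ℝ S).extremePoints ℝ ⊆ S := extremePoints_convexHull_subset
  have hfin : ((convexHull ℝ S).extremePoints ℝ).Finite := hS.subset hsub
  refine ⟨hfin, ?_⟩
  rw [Set.ncard_eq_toFinset_card _ hfin]
  apply MPee94.gruenbaum
  intro x hx y hy hxy
  rw [Set.Finite.mem_toFinset] at hx hy
  obtain ⟨f, hf⟩ := pair_functional (h x hx y hy hxy)
  refine ⟨f, fun z hz => hf z ?_⟩
  rw [Set.Finite.coe_toFinset] at hz
  exact convexHull_min (extremePoints_subset) (convex_convexHull ℝ S) hz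

/-- There is a convex body in `ℝ³` whose covering number by proper translates is at least 6, while
every 0-antipodal 3-polytope has at most 5 vertices -/
theorem result :
    ∃ K : Set E3, IsConvexBody K ∧ ∃ n : ℕ, IsLeast {k : ℕ | CoveredBy K k} n ∧ 6 ≤ n ∧
      ∀ P : Set E3, ZeroAntipodalPolytope P →
        (P.extremePoints ℝ).Finite ∧ (P.extremePoints ℝ).ncard ≤ 5 := by
  have hco : ∀ k, CoveredBy MPee94.K k ↔
      ∃ t : Fin k → EuclideanSpace ℝ (Fin 3), (∀ i, t i ≠ 0) ∧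
        MPee94.K ⊆ ⋃ i, (fun p => t i + p) '' MPee94.K := by
    intro k
    unfold CoveredBy
    simp only [add_comm]
  have hex := MPee94.exists_cover MPee94.K_convex MPee94.K_compact MPee94.zero_mem_interior
  classical
  refine ⟨MPee94.K, ⟨MPee94.K_compact, MPee94.K_convex, ⟨0, MPee94.zero_mem_interior⟩⟩,
    Nat.find hex, ⟨(hco _).2 (Nat.find_spec hex), fun k hk => Nat.find_min' hex ((hco k).1 hk)⟩,
    ?_, fun P hP => vertices_le hP⟩
  obtain ⟨t, ht, hK⟩ := Nat.find_spec hex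
  exact MPee94.six_le t ht hK

end Pool.Agent.Results.MP_ee94a4_gt.CoveringNumber
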